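import Pool.Graph.R_pool_sql_team_seeded_3997aac3.Results.MP_9721b5_an.FinitaryForm
import Pool.Agent.H201.Ap.Sweep

/-! # Cubic progression averages: one aperiodic system and one set

The question about all systems and all bounded functions is equivalent to a uniform rate for the sets of one
aperiodic system, for instance for the finite unions of arcs of one irrational rotation of the circle. -/

set_option autoImplicit false

open MeasureTheory Filter Topology
open scoped ENNReal

namespace Pool.Agent.Results.MP_9721b5_an.OneAperiodicSystem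

open Pool.Agent.Q161 Pool.Agent.H201.Ap

/-- The affirmative answer to the question: `T` is invertible, and `avg T f g h x N` is the average
`(1/N) ∑_{n=1}^N f(T^n x) g(T^{2n} x) h(T^{3n} x)`. -/
def Question : Prop :=
  ∀ (X : Type) [MeasurableSpace X] (μ : Measure X) [IsProbabilityMeasure μ] (T : X ≃ᵐ X),
    MeasurePreserving T μ μ →
    ∀ f g h : X → ℝ, MemLp f ⊤ μ → MemLp g ⊤ μ → MemLp h ⊤ μ →
      ∀ᵐ x ∂μ, ∃ L : ℝ, Tendsto (FinitaryForm.avg T f g h x) atTop (𝓝 L)

/-- The share of the `k`, `1 ≤ k ≤ n`, with `T^k x`, `T^{2k} x`, `T^{3k} x` in `A`. -/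
noncomputable def density {X : Type} (T : X → X) (A : Set X) (n : ℕ) (x : X) : ℝ :=
  (Nat.card {k : ℕ // 1 ≤ k ∧ k ≤ n ∧ T^[k] x ∈ A ∧ T^[2 * k] x ∈ A ∧ T^[3 * k] x ∈ A} : ℝ) / n

/-- A rate of metastability for the map `T`, uniform over the sets `A` of a family. -/
def Rate {X : Type} [MeasurableSpace X] (μ : Measure X) (T : X → X) (𝒜 : Set (Set X)) : Prop :=
  ∀ ε : ℝ, 0 < ε → ∀ Φ : ℕ → ℕ, ∃ K : ℕ, ∀ A ∈ 𝒜, ∃ N, 1 ≤ N ∧ N ≤ K ∧
    μ {x | ∃ n, N ≤ n ∧ n ≤ Φ N ∧ ε < |density T A n x - density T A N x|} ≤ ENNReal.ofReal ε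

/-- The finite unions of arcs of the circle `ℝ / ℤ`. -/
def Arcs : Set (Set UnitAddCircle) :=
  {A | ∃ S : Finset (ℝ × ℝ), A = ⋃ p ∈ S, (fun t : ℝ => (t : UnitAddCircle)) '' Set.Ico p.1 p.2}

lemma question_finitary (hQ : Question) : FinitaryForm.Finitary := by
  intro ε hε Φ
  have h1 := Ms.meta_uniform (Γ := Multiplicative ℤ) (J := Fin 3) (I := ℕ) (Θ := ℕ) (𝕜 := ℝ) atTop
    (fun N : ℕ => (N : ℝ)⁻¹) (fun N => Finset.Icc 1 N) (fun j n => Multiplicative.ofAdd ((((j : ℕ) + 1) * n : ℕ) : ℤ))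
    (fun N R => Finset.Icc N R) (fun N => N) (by
      intro U hU
      obtain ⟨a, ha⟩ := mem_atTop_sets.1 hU
      filter_upwards [eventually_ge_atTop a] with N hN
      refine ⟨ha N hN, fun R t ht => ?_⟩
      rw [Finset.mem_Icc] at ht
      exact ha t (hN.trans ht.1)) (by
      intro ν hν
      let T : Ms.Conf (Multiplicative ℤ) (Fin 3) ℝ ≃ᵐ Ms.Conf (Multiplicative ℤ) (Fin 3) ℝ :=
        { toFun := Ms.sh (Multiplicative.ofAdd 1)
          invFun := Ms.sh (Multiplicative.ofAdd (-1))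
          left_inv := by
            intro ω
            have := congrFun (Ms.sh_mul (J := Fin 3) (𝕜 := ℝ) (Multiplicative.ofAdd (-1 : ℤ)) (Multiplicative.ofAdd 1)) ω
            rw [← ofAdd_add] at this
            simp only [Function.comp_apply] at this
            rw [← this]
            simp [Ms.sh_one]
          right_inv := by
            intro ω
            have := congrFun (Ms.sh_mul (J := Fin 3) (𝕜 := ℝ) (Multiplicative.ofAdd (1 : ℤ)) (Multiplicative.ofAdd (-1))) ω
            rw [← ofAdd_add] at this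
            simp only [Function.comp_apply] at this
            rw [← this]
            simp [Ms.sh_one]
          measurable_toFun := (Ms.sh_cont _).measurable
          measurable_invFun := (Ms.sh_cont _).measurable }
      have hit : ∀ n : ℕ, (T : Ms.Conf (Multiplicative ℤ) (Fin 3) ℝ → Ms.Conf (Multiplicative ℤ) (Fin 3) ℝ)^[n] =
          Ms.sh (Multiplicative.ofAdd (n : ℤ)) := by
        intro n
        induction n with
        | zero => rw [Function.iterate_zero]; exact Ms.sh_one.symm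
        | succ n ih =>
          rw [Function.iterate_succ, ih]
          push_cast
          rw [ofAdd_add, Ms.sh_mul]
          rfl
      have hcoord : ∀ j : Fin 3, MemLp (fun ω : Ms.Conf (Multiplicative ℤ) (Fin 3) ℝ =>
          ((ω 1 j : Metric.closedBall (0 : ℝ) 1) : ℝ)) ⊤ (ν : Measure (Ms.Conf (Multiplicative ℤ) (Fin 3) ℝ)) := by
        intro j
        apply memLp_top_of_bound (C := 1)
        · refine Measurable.aestronglyMeasurable ?_
          exact measurable_subtype_coe.comp ((measurable_pi_apply j).comp (measurable_pi_apply 1))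
        · refine Eventually.of_forall fun ω => ?_
          have h2 := (ω 1 j).2
          rw [mem_closedBall_zero_iff] at h2
          exact h2
      have h2 := hQ _ (ν : Measure (Ms.Conf (Multiplicative ℤ) (Fin 3) ℝ)) T
        (hν _) _ _ _ (hcoord 0) (hcoord 1) (hcoord 2)
      filter_upwards [h2] with ω hω
      obtain ⟨l, hl⟩ := hω
      refine ⟨l, hl.congr fun N => ?_⟩
      rw [← FinitaryForm.av_eq]
      unfold Ms.av
      congr 1
      refine Finset.sum_congr rfl fun n _ => ?_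
      refine Finset.prod_congr rfl fun j _ => ?_
      simp only [hit]
      fin_cases j <;> rfl) ε hε Φ
  obtain ⟨K, hK⟩ := h1
  refine ⟨K, ?_⟩
  intro M hM A
  have : NeZero M := ⟨hM.ne'⟩
  have := Ms.unif_prob M
  obtain ⟨N, h1, h2, h3⟩ := hK (ZMod M) (Ms.unif M) (fun g x => x + ((Multiplicative.toAdd g : ℤ) : ZMod M)) (by
      intro a b
      funext x
      simp only [Function.comp_apply, toAdd_mul]
      push_cast
      ring) (by
      intro a
      refine ⟨measurable_of_countable _, ?_⟩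
      apply Measure.ext
      intro s hs
      rw [Measure.map_apply (measurable_of_countable _) hs, Ms.unif_apply, Ms.unif_apply]
      have h6 : Nat.card ↑((fun x : ZMod M => x + ((Multiplicative.toAdd a : ℤ) : ZMod M)) ⁻¹' s) = Nat.card ↑s :=
        Nat.card_congr (Equiv.subtypeEquiv (p := fun x : ZMod M => x + ((Multiplicative.toAdd a : ℤ) : ZMod M) ∈ s)
          (q := fun x => x ∈ s) (Equiv.addRight ((Multiplicative.toAdd a : ℤ) : ZMod M)) fun x => Iff.rfl)
      rw [h6])
      (fun _ => A.indicator (1 : ZMod M → ℝ)) (fun _ => measurable_of_countable _) (by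
      intro j x
      by_cases h : x ∈ A <;> simp [h])
  refine ⟨N, h1, h2, ?_⟩
  rw [Ms.unif_apply, ENNReal.ofReal_le_ofReal_iff hε.le, div_le_iff₀ (by exact_mod_cast hM)] at h3
  refine le_trans (le_of_eq ?_) h3
  congr 1
  have h4 : ∀ (x : ZMod M) (n : ℕ), Ms.av (fun N : ℕ => (N : ℝ)⁻¹) (fun N => Finset.Icc 1 N)
      (fun (j : Fin 3) n => fun x : ZMod M =>
        x + ((Multiplicative.toAdd (Multiplicative.ofAdd ((((j : ℕ) + 1) * n : ℕ) : ℤ)) : ℤ) : ZMod M))
      (fun _ => A.indicator (1 : ZMod M → ℝ)) x n = FinitaryForm.density A n x := by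
    intro x n
    rw [← FinitaryForm.avg_density, ← FinitaryForm.av_eq]
    unfold Ms.av
    congr 1
    refine Finset.sum_congr rfl fun n _ => ?_
    refine Finset.prod_congr rfl fun j _ => ?_
    simp only [FinitaryForm.iter_zmod]
    fin_cases j <;> simp [mul_comm]
  apply Nat.card_congr
  refine Equiv.subtypeEquivRight fun x => exists_congr fun n => ?_
  rw [Real.dist_eq, h4, h4, Finset.mem_Icc, and_assoc]

lemma density_cnt {X : Type} (T : X → X) (A : Set X) (n : ℕ) (x : X) :
    density T A n x = (Ms.cnt (fun j => T^[j] x ∈ A) n 0 : ℝ) / n := by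
  classical
  unfold density Ms.cnt
  congr 2
  rw [Nat.subtype_card]
  intro k
  rw [Finset.mem_filter, Finset.mem_Icc, and_assoc]
  simp only [zero_add]

lemma rate_of_question (hQ : Question) {X : Type} [MeasurableSpace X] (μ : Measure X) [IsProbabilityMeasure μ]
    (T : X → X) (hT : MeasurePreserving T μ μ) (𝒜 : Set (Set X)) (h𝒜 : ∀ A ∈ 𝒜, MeasurableSet A) : Rate μ T 𝒜 := by
  classical
  intro ε hε Φ
  obtain ⟨K, hK⟩ := FinitaryForm.question_uniform (FinitaryForm.finitary_question (question_finitary hQ)) ε hε Φ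
  refine ⟨K, fun A hA => ?_⟩
  have hm : Measurable (A.indicator (1 : X → ℝ)) := measurable_one.indicator (h𝒜 A hA)
  have hb : ∀ x, |A.indicator (1 : X → ℝ) x| ≤ 1 := by
    intro x
    by_cases h : x ∈ A <;> simp [h]
  obtain ⟨N, h1, h2, h3⟩ := hK X μ T hT _ _ _ hm hm hm hb hb hb
  refine ⟨N, h1, h2, ?_⟩
  have h4 : ∀ x n, FinitaryForm.avg T (A.indicator 1) (A.indicator 1) (A.indicator 1) x n = density T A n x := by
    intro x n
    unfold FinitaryForm.avg
    rw [density_cnt]
    unfold Ms.cnt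
    rw [div_eq_inv_mul]
    congr 1
    rw [Finset.card_eq_sum_ones, Finset.sum_filter]
    push_cast
    refine Finset.sum_congr rfl fun k _ => ?_
    simp only [Set.indicator_apply, Pi.one_apply, zero_add]
    by_cases h2 : T^[k] x ∈ A <;> by_cases h3 : T^[2 * k] x ∈ A <;> by_cases h4 : T^[3 * k] x ∈ A <;>
      simp [h2, h3, h4]
  simp only [h4] at h3
  exact h3

/-- The main step: codes of first visit times carry all finite cyclic groups into one system. -/
theorem finitary_of_rate {X : Type} [MeasurableSpace X] (μ : Measure X) [IsProbabilityMeasure μ] (T : X → X)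
    (hT : MeasurePreserving T μ μ)
    (hsw : ∀ n : ℕ, ∃ B, MeasurableSet B ∧ n * μ B ≤ 1 ∧ ∀ᵐ x ∂μ, ∃ i, T^[i] x ∈ B)
    (𝒜 : Set (Set X)) (hd : ∀ A, MeasurableSet A → ∀ η : ℝ, 0 < η → ∃ W ∈ 𝒜, μ (symmDiff A W) ≤ ENNReal.ofReal η)
    (h𝒜 : ∀ A ∈ 𝒜, MeasurableSet A)
    (hR : Rate μ T 𝒜) : FinitaryForm.Finitary := by
  classical
  intro ε hε Φ
  obtain ⟨K, hK⟩ := hR (ε / 2) (by linarith) Φ
  refine ⟨K, ?_⟩
  intro M hM A
  have hNZ : NeZero M := ⟨hM.ne'⟩
  have hM' : (0 : ℝ) < M := by exact_mod_cast hM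
  obtain ⟨L, hL⟩ : ∃ L : ℕ, ∀ N, N ≤ K → Φ N ≤ L := by
    refine ⟨(Finset.range (K + 1)).sup Φ, fun N hN => ?_⟩
    exact Finset.le_sup (f := Φ) (Finset.mem_range.2 (by omega))
  obtain ⟨D, hD⟩ : ∃ D : ℕ, D = 3 * L + 1 := ⟨_, rfl⟩
  obtain ⟨n0, hn0⟩ : ∃ n0 : ℕ, 4 * (M + D : ℝ) / ε < n0 := exists_nat_gt _
  have hn0' : (0 : ℝ) < n0 := lt_trans (by positivity) hn0
  obtain ⟨B, hB, hB1, hB2⟩ := hsw n0
  have hBr : μ.real B ≤ 1 / n0 := by
    rw [le_div_iff₀ hn0', mul_comm]
    have := ENNReal.toReal_mono ENNReal.one_ne_top hB1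
    rw [ENNReal.toReal_mul, ENNReal.toReal_natCast, ENNReal.toReal_one] at this
    exact this
  have hBs : (M + D : ℝ) * μ.real B ≤ ε / 4 := by
    have h1 : (M + D : ℝ) * μ.real B ≤ (M + D : ℝ) * (1 / n0) := by gcongr
    refine h1.trans ?_
    rw [mul_one_div, div_le_iff₀ hn0']
    rw [div_lt_iff₀ hε] at hn0
    linarith
  have hA' := code_meas hT.measurable hB A
  have hD0 : (0 : ℝ) < D := by rw [hD]; positivity
  obtain ⟨W, hW, hWs⟩ := hd _ hA' (ε / (4 * D)) (by positivity)
  obtain ⟨N, hN1, hN2, hN3⟩ := hK W hW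
  refine ⟨N, hN1, hN2, ?_⟩
  have hΔm : MeasurableSet (symmDiff (code T B A) W) := hA'.symmDiff (h𝒜 W hW)
  have hΔ : μ.real (⋃ j ∈ Finset.range D, T^[j] ⁻¹' symmDiff (code T B A) W) ≤ ε / 4 := by
    refine (measureReal_biUnion_finset_le _ _).trans ?_
    have h3 : ∀ s ∈ Finset.range D, μ.real (T^[s] ⁻¹' symmDiff (code T B A) W) ≤ ε / (4 * D) := by
      intro s _
      unfold Measure.real
      rw [(hT.iterate s).measure_preimage hΔm.nullMeasurableSet]
      exact ENNReal.toReal_le_of_le_ofReal (by positivity) hWs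
    refine (Finset.sum_le_sum h3).trans (le_of_eq ?_)
    simp
    field_simp
  have hN3' : μ.real {x | ∃ n, N ≤ n ∧ n ≤ Φ N ∧ ε / 2 < |density T W n x - density T W N x|} ≤ ε / 2 :=
    ENNReal.toReal_le_of_le_ofReal (by positivity) hN3
  obtain ⟨S, hS⟩ : ∃ S : Set (ZMod M), S = {x | ∃ n, N ≤ n ∧ n ≤ Φ N ∧
      ε < |FinitaryForm.density A n x - FinitaryForm.density A N x|} := ⟨_, rfl⟩
  have h1 := set_lower μ hT hB hB2 hM S
  have h2 : code T B S ⊆ (⋃ i ∈ Finset.range D, lev T B i) ∪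
      ((⋃ j ∈ Finset.range D, T^[j] ⁻¹' symmDiff (code T B A) W) ∪
        {x | ∃ n, N ≤ n ∧ n ≤ Φ N ∧ ε / 2 < |density T W n x - density T W N x|}) := by
    rintro x ⟨i, hi, hiS⟩
    by_cases hiD : i < D
    · left
      simp only [Set.mem_iUnion, Finset.mem_range, exists_prop]
      exact ⟨i, hiD, hi⟩
    right
    by_cases hx : x ∈ ⋃ j ∈ Finset.range D, T^[j] ⁻¹' symmDiff (code T B A) W
    · left
      exact hx
    right
    simp only [Set.mem_iUnion, Finset.mem_range, exists_prop, Set.mem_preimage, not_exists, not_and,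
      Set.mem_symmDiff, not_or] at hx
    push Not at hiD
    rw [hS] at hiS
    obtain ⟨n, hn1, hn2, hn3⟩ := hiS
    have hsame : ∀ j, j < D → (T^[j] x ∈ W ↔ -(i : ZMod M) + j ∈ A) := by
      intro j hj
      rw [← code_iff A (hj.le.trans hiD) hi]
      have := hx j hj
      tauto
    have hden : ∀ l, l ≤ L → density T W l x = FinitaryForm.density A l (-(i : ZMod M)) := by
      intro l hl
      unfold density FinitaryForm.density
      congr 2
      apply Nat.card_congr
      refine Equiv.subtypeEquivRight fun k => and_congr_right fun hk1 => and_congr_right fun hk2 => ?_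
      rw [hsame k (by omega), hsame (2 * k) (by omega), hsame (3 * k) (by omega)]
      push_cast
      rfl
    refine ⟨n, hn1, hn2, ?_⟩
    rw [hden n (hn2.trans (hL N hN2)), hden N (hn1.trans (hn2.trans (hL N hN2)))]
    linarith
  have h3 := (measureReal_mono h2 (μ := μ)).trans ((measureReal_union_le _ _).trans (add_le_add le_rfl (measureReal_union_le _ _)))
  have h4 := early_le μ hT hB D
  have h5 : (Nat.card {x : ZMod M // ∃ n, N ≤ n ∧ n ≤ Φ N ∧
      ε < |FinitaryForm.density A n x - FinitaryForm.density A N x|} : ℝ) = Nat.card S := by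
    rw [hS]
    rfl
  rw [h5, ← div_le_iff₀ hM']
  linarith

lemma arc_meas (p : ℝ × ℝ) : MeasurableSet ((fun t : ℝ => (t : UnitAddCircle)) '' Set.Ico p.1 p.2) := by
  rcases lt_or_ge p.1 p.2 with h | h
  · rw [← Set.Ioo_insert_left h, Set.image_insert_eq]
    refine MeasurableSet.insert ?_ _
    exact (QuotientAddGroup.isOpenMap_coe (N := AddSubgroup.zmultiples (1 : ℝ)) _ isOpen_Ioo).measurableSet
  · rw [Set.Ico_eq_empty (not_lt.2 h), Set.image_empty]
    exact MeasurableSet.empty

lemma arcs_meas (A : Set UnitAddCircle) (hA : A ∈ Arcs) : MeasurableSet A := by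
  obtain ⟨S, hS⟩ := hA
  rw [hS]
  exact Finset.measurableSet_biUnion _ fun p _ => arc_meas p

lemma arcs_dense (A : Set UnitAddCircle) (hA : MeasurableSet A) (η : ℝ) (hη : 0 < η) :
    ∃ W ∈ Arcs, volume (symmDiff A W) ≤ ENNReal.ofReal η := by
  classical
  have hη2 : ENNReal.ofReal (η / 2) ≠ 0 := by
    rw [Ne, ENNReal.ofReal_eq_zero]
    push Not
    linarith
  obtain ⟨F, hF1, hF2, hF3⟩ := hA.exists_isCompact_lt_add (μ := volume) (measure_ne_top _ _) hη2
  obtain ⟨U, hU1, hU2, hU3⟩ := A.exists_isOpen_lt_add (μ := volume) (measure_ne_top _ _) hη2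
  have hloc : ∀ x : UnitAddCircle, x ∈ F → ∃ p : ℝ × ℝ, (fun t : ℝ => (t : UnitAddCircle)) '' Set.Ico p.1 p.2 ∈ 𝓝 x ∧
      (fun t : ℝ => (t : UnitAddCircle)) '' Set.Ico p.1 p.2 ⊆ U := by
    intro x hx
    obtain ⟨t, rfl⟩ := QuotientAddGroup.mk_surjective x
    have h1 : IsOpen ((fun t : ℝ => (t : UnitAddCircle)) ⁻¹' U) := hU2.preimage (AddCircle.continuous_mk' 1)
    obtain ⟨r, hr, h2⟩ := Metric.isOpen_iff.1 h1 t (hU1 (hF1 hx))
    refine ⟨(t - r / 2, t + r / 2), ?_, ?_⟩
    · have h3 : IsOpen ((fun t : ℝ => (t : UnitAddCircle)) '' Set.Ioo (t - r / 2) (t + r / 2)) :=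
        QuotientAddGroup.isOpenMap_coe (N := AddSubgroup.zmultiples (1 : ℝ)) _ isOpen_Ioo
      refine Filter.mem_of_superset (h3.mem_nhds ⟨t, ⟨by linarith, by linarith⟩, rfl⟩) ?_
      exact Set.image_mono Set.Ioo_subset_Ico_self
    · rintro _ ⟨s, hs, rfl⟩
      apply h2
      rw [Metric.mem_ball, Real.dist_eq, abs_lt]
      constructor <;> linarith [hs.1, hs.2]
  choose! p hp1 hp2 using hloc
  obtain ⟨c, hc1, hc2⟩ := hF2.elim_nhds_subcover (fun x => (fun t : ℝ => (t : UnitAddCircle)) '' Set.Ico (p x).1 (p x).2)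
    (fun x hx => hp1 x hx)
  refine ⟨⋃ x ∈ c, (fun t : ℝ => (t : UnitAddCircle)) '' Set.Ico (p x).1 (p x).2, ⟨c.image p, ?_⟩, ?_⟩
  · rw [Finset.set_biUnion_finset_image]
  · have h1 : symmDiff A (⋃ x ∈ c, (fun t : ℝ => (t : UnitAddCircle)) '' Set.Ico (p x).1 (p x).2) ⊆ U \ F := by
      rintro x (⟨h1, h2⟩ | ⟨h1, h2⟩)
      · exact ⟨hU1 h1, fun h3 => h2 (hc2 h3)⟩
      · refine ⟨?_, fun h3 => h2 (hF1 h3)⟩
        simp only [Set.mem_iUnion, exists_prop] at h1
        obtain ⟨y, hy, h1⟩ := h1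
        exact hp2 y (hc1 y hy) h1
    refine (measure_mono h1).trans ?_
    rw [measure_sdiff (hF1.trans hU1) hF2.measurableSet.nullMeasurableSet (measure_ne_top _ _), tsub_le_iff_left]
    have h2 : ENNReal.ofReal η = ENNReal.ofReal (η / 2) + ENNReal.ofReal (η / 2) := by
      rw [← ENNReal.ofReal_add (by linarith) (by linarith)]
      congr 1
      ring
    rw [h2, ← add_assoc]
    exact hU3.le.trans (add_le_add hF3.le le_rfl)

lemma rotation_iter (α : ℝ) (n : ℕ) (x : UnitAddCircle) :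
    (fun x : UnitAddCircle => x + (α : UnitAddCircle))^[n] x = x + n • (α : UnitAddCircle) := by
  induction n with
  | zero => simp
  | succ n ih =>
    rw [Function.iterate_succ_apply', ih, succ_nsmul, add_assoc]

lemma rotation_aperiodic {α : ℝ} (hα : Irrational α) (n : ℕ) (hn : 1 ≤ n) (x : UnitAddCircle) :
    (fun x : UnitAddCircle => x + (α : UnitAddCircle))^[n] x ≠ x := by
  rw [rotation_iter]
  intro h
  rw [add_eq_left, ← AddCircle.coe_nsmul, AddCircle.coe_eq_zero_iff] at h
  obtain ⟨k, hk⟩ := h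
  rw [nsmul_eq_mul, zsmul_eq_mul, mul_one] at hk
  have h1 : Irrational (n * α) := hα.natCast_mul (by omega)
  rw [← hk] at h1
  exact h1 ⟨k, by simp⟩

/-- For a measure preserving map `T` of a probability space with a countably separated σ-algebra which is aperiodic
(almost no point is periodic), and every family `𝒜` of measurable sets which is dense in measure, the question
for all systems and all bounded functions is equivalent to a rate of metastability for the one map `T`, uniform over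
the sets in `𝒜`. In particular this holds for one irrational rotation of the circle and the finite unions of arcs. -/
theorem result :
    (∀ (X : Type) [MeasurableSpace X] [MeasurableSpace.CountablySeparated X] (μ : Measure X) [IsProbabilityMeasure μ]
      (T : X → X), MeasurePreserving T μ μ → (∀ᵐ x ∂μ, ∀ n, 1 ≤ n → T^[n] x ≠ x) →
      ∀ 𝒜 : Set (Set X), (∀ A ∈ 𝒜, MeasurableSet A) →
        (∀ A, MeasurableSet A → ∀ η : ℝ, 0 < η → ∃ W ∈ 𝒜, μ (symmDiff A W) ≤ ENNReal.ofReal η) →
        (Question ↔ Rate μ T 𝒜)) ∧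
    ∀ α : ℝ, Irrational α → (Question ↔ Rate volume (fun x : UnitAddCircle => x + (α : UnitAddCircle)) Arcs) := by
  have main : ∀ (X : Type) [MeasurableSpace X] [MeasurableSpace.CountablySeparated X] (μ : Measure X)
      [IsProbabilityMeasure μ] (T : X → X), MeasurePreserving T μ μ → (∀ᵐ x ∂μ, ∀ n, 1 ≤ n → T^[n] x ≠ x) →
      ∀ 𝒜 : Set (Set X), (∀ A ∈ 𝒜, MeasurableSet A) →
        (∀ A, MeasurableSet A → ∀ η : ℝ, 0 < η → ∃ W ∈ 𝒜, μ (symmDiff A W) ≤ ENNReal.ofReal η) →
        (Question ↔ Rate μ T 𝒜) := by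
    intro X _ _ μ _ T hT hap 𝒜 h𝒜 hd
    refine ⟨fun hQ => rate_of_question hQ μ T hT 𝒜 h𝒜, fun hR => ?_⟩
    have h1 := FinitaryForm.finitary_question
      (finitary_of_rate μ T hT (exists_sweep μ T hT hap) 𝒜 hd h𝒜 hR)
    intro Y _ ν _ S hS f g h hf hg hh
    exact h1 Y ν S hS f g h hf hg hh
  refine ⟨main, fun α hα => ?_⟩
  have hprob : IsProbabilityMeasure (volume : Measure UnitAddCircle) := ⟨UnitAddCircle.measure_univ⟩
  apply main _ volume _ (measurePreserving_add_right volume _) _ Arcs arcs_meas arcs_dense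
  exact Eventually.of_forall fun x n hn => rotation_aperiodic hα n hn x

end Pool.Agent.Results.MP_9721b5_an.OneAperiodicSystem
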